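import Pool.Agent.Y755.FK.Stm

/-!
# Legendre's theorem on conics
-/

set_option autoImplicit false

namespace Pool.Agent.Y168.FK

open Pool.Agent.Y755.FK

theorem sq_crt (c : ℤ) {n : ℕ} : Squarefree n →
    (∀ p : ℕ, p.Prime → p ∣ n → ∃ s : ℤ, (p : ℤ) ∣ s ^ 2 - c) →
    ∃ s : ℤ, (n : ℤ) ∣ s ^ 2 - c := by
  induction n using induction_on_primes with
  | zero => intro h; exact absurd h not_squarefree_zero
  | one => intro _ _; exact ⟨0, by simp⟩
  | prime_mul p a hp ih =>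
    intro hsf h
    obtain ⟨hcop, -, hsa⟩ := Nat.squarefree_mul_iff.1 hsf
    obtain ⟨s2, h2⟩ := ih hsa fun q hq hqa => h q hq (hqa.mul_left p)
    obtain ⟨s1, h1⟩ := h p hp (dvd_mul_right p a)
    have hc : IsCoprime (p : ℤ) (a : ℤ) := Nat.isCoprime_iff_coprime.2 hcop
    obtain ⟨u, v, huv⟩ := hc
    refine ⟨s1 * (v * a) + s2 * (u * p), ?_⟩
    push_cast
    have hc : IsCoprime (p : ℤ) (a : ℤ) := ⟨u, v, huv⟩
    refine hc.mul_dvd ?_ ?_
    · have e : s1 * (v * a) + s2 * (u * p) = s1 + p * (u * (s2 - s1)) := by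
        linear_combination s1 * huv
      rw [e]
      have : (s1 + p * (u * (s2 - s1))) ^ 2 - c = (s1 ^ 2 - c)
        + p * (2 * s1 * (u * (s2 - s1)) + p * (u * (s2 - s1)) ^ 2) := by ring
      rw [this]
      exact dvd_add h1 (dvd_mul_right _ _)
    · have e : s1 * (v * a) + s2 * (u * p) = s2 + a * (v * (s1 - s2)) := by
        linear_combination s2 * huv
      rw [e]
      have : (s2 + a * (v * (s1 - s2))) ^ 2 - c = (s2 ^ 2 - c)
        + a * (2 * s2 * (v * (s1 - s2)) + a * (v * (s1 - s2)) ^ 2) := by ring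
      rw [this]
      exact dvd_add h2 (dvd_mul_right _ _)

theorem sq_lift (c : ℤ) {p : ℕ} [NeZero p] (h : IsSquare (c : ZMod p)) :
    ∃ s : ℤ, (p : ℤ) ∣ s ^ 2 - c := by
  obtain ⟨w, hw⟩ := h
  refine ⟨(w.val : ℤ), ?_⟩
  rw [← ZMod.intCast_zmod_eq_zero_iff_dvd]
  push_cast
  rw [ZMod.natCast_val, ZMod.cast_id', id, hw]
  ring

/-- Mordell's proof of Legendre's theorem -/
theorem legendre {r b c : ℕ} (hr0 : 0 < r) (hb0 : 0 < b) (hc0 : 0 < c) (hrb : r.Coprime b)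
    (hrc : r.Coprime c) (hbc : b.Coprime c) (h1 : ∃ s : ℤ, (r : ℤ) ∣ s ^ 2 + b * c)
    (h2 : ∃ t : ℤ, (b : ℤ) ∣ t ^ 2 - r * c) (h3 : ∃ w : ℤ, (c : ℤ) ∣ w ^ 2 - r * b)
    (n1 : ∀ x : ℤ, x ^ 2 ≠ r * c) (n2 : ∀ x : ℤ, x ^ 2 ≠ r * b) (n3 : ∀ x : ℤ, x ^ 2 ≠ b * c) :
    ∃ x y z : ℤ, z ≠ 0 ∧ b * x ^ 2 + c * y ^ 2 = r * z ^ 2 := by
  have : NeZero r := ⟨hr0.ne'⟩
  have : NeZero b := ⟨hb0.ne'⟩
  have : NeZero c := ⟨hc0.ne'⟩
  obtain ⟨s, hs⟩ := h1
  obtain ⟨t, ht⟩ := h2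
  obtain ⟨w, hw⟩ := h3
  -- pigeonhole
  set X := Nat.sqrt (b * c) with hX
  set Y := Nat.sqrt (r * c) with hY
  set Z := Nat.sqrt (r * b) with hZ
  have hcard : r * b * c < (X + 1) * ((Y + 1) * (Z + 1)) := by
    have e1 := Nat.lt_succ_sqrt (b * c)
    have e2 := Nat.lt_succ_sqrt (r * c)
    have e3 := Nat.lt_succ_sqrt (r * b)
    simp only [Nat.succ_eq_add_one, ← hX, ← hY, ← hZ] at e1 e2 e3
    by_contra hcon
    rw [not_lt] at hcon
    have e4 : ((X + 1) * ((Y + 1) * (Z + 1))) * ((X + 1) * ((Y + 1) * (Z + 1)))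
        ≤ (r * b * c) * (r * b * c) := Nat.mul_le_mul hcon hcon
    have e5 : (b * c) * ((r * c) * (r * b)) <
        ((X + 1) * (X + 1)) * (((Y + 1) * (Y + 1)) * ((Z + 1) * (Z + 1))) :=
      Nat.mul_lt_mul'' e1 (Nat.mul_lt_mul'' e2 e3)
    have e6 : (b * c) * ((r * c) * (r * b)) = (r * b * c) * (r * b * c) := by ring
    have e7 : ((X + 1) * (X + 1)) * (((Y + 1) * (Y + 1)) * ((Z + 1) * (Z + 1)))
      = ((X + 1) * ((Y + 1) * (Z + 1))) * ((X + 1) * ((Y + 1) * (Z + 1))) := by ring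
    omega
  let F : ℕ × ℕ × ℕ → ZMod r × ZMod b × ZMod c := fun q =>
    (((s * q.2.1 - c * q.2.2 : ℤ) : ZMod r), ((r * q.1 - t * q.2.2 : ℤ) : ZMod b),
      ((r * q.1 - w * q.2.1 : ℤ) : ZMod c))
  obtain ⟨q, hq, q', hq', hne, heq⟩ := Finset.exists_ne_map_eq_of_card_lt_of_maps_to
    (s := Finset.range (X + 1) ×ˢ (Finset.range (Y + 1) ×ˢ Finset.range (Z + 1)))
    (t := (Finset.univ : Finset (ZMod r × ZMod b × ZMod c))) (f := F)
    (by
      rw [Finset.card_univ, Finset.card_product, Finset.card_product]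
      simp only [Fintype.card_prod, ZMod.card, Finset.card_range]
      calc _ = r * b * c := by ring
        _ < _ := hcard) (fun _ _ => Finset.mem_univ _)
  obtain ⟨x0, y0, z0⟩ := q
  obtain ⟨x1, y1, z1⟩ := q'
  simp only [Finset.mem_product, Finset.mem_range] at hq hq'
  simp only [F, Prod.mk.injEq] at heq
  obtain ⟨g1, g2, g3⟩ := heq
  rw [ZMod.intCast_eq_intCast_iff_dvd_sub] at g1 g2 g3
  set x : ℤ := x1 - x0 with hx
  set y : ℤ := y1 - y0 with hy
  set z : ℤ := z1 - z0 with hz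
  have k1 : (r : ℤ) ∣ s * y - c * z := by
    refine g1.trans (dvd_of_eq ?_)
    rw [hy, hz]; ring
  have k2 : (b : ℤ) ∣ r * x - t * z := by
    refine g2.trans (dvd_of_eq ?_)
    rw [hx, hz]; ring
  have k3 : (c : ℤ) ∣ r * x - w * y := by
    refine g3.trans (dvd_of_eq ?_)
    rw [hx, hy]; ring
  have hxyz : ¬ (x = 0 ∧ y = 0 ∧ z = 0) := by
    rintro ⟨e1, e2, e3⟩
    apply hne
    have e1' : x1 = x0 := by omega
    have e2' : y1 = y0 := by omega
    have e3' : z1 = z0 := by omega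
    rw [e1', e2', e3']
  have hxX : |x| ≤ X := by rw [abs_le]; omega
  have hyY : |y| ≤ Y := by rw [abs_le]; omega
  have hzZ : |z| ≤ Z := by rw [abs_le]; omega
  have sqb : ∀ (n : ℕ) (v : ℤ), |v| ≤ Nat.sqrt n → v ^ 2 ≤ n := by
    intro n v hv
    have e := Nat.sqrt_le n
    have e' : (Nat.sqrt n : ℤ) * Nat.sqrt n ≤ n := by exact_mod_cast e
    calc v ^ 2 = |v| * |v| := by rw [abs_mul_abs_self]; ring
      _ ≤ (Nat.sqrt n : ℤ) * Nat.sqrt n := mul_le_mul hv hv (abs_nonneg _) (by positivity)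
      _ ≤ n := e'
  have hx2 : x ^ 2 < b * c := by
    have e1 := sqb _ _ hxX
    push_cast at e1
    exact lt_of_le_of_ne e1 (n3 x)
  have hy2 : y ^ 2 < r * c := by
    have e1 := sqb _ _ hyY
    push_cast at e1
    exact lt_of_le_of_ne e1 (n1 y)
  have hz2 : z ^ 2 < r * b := by
    have e1 := sqb _ _ hzZ
    push_cast at e1
    exact lt_of_le_of_ne e1 (n2 z)
  -- divisibility
  set f : ℤ := r * x ^ 2 - b * y ^ 2 - c * z ^ 2 with hf
  have d1 : (r : ℤ) ∣ f := by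
    have hc : IsCoprime (r : ℤ) (c : ℤ) := Nat.isCoprime_iff_coprime.2 hrc
    refine hc.dvd_of_dvd_mul_left ?_
    have e : c * f = (s * y - c * z) * (s * y + c * z) - y ^ 2 * (s ^ 2 + b * c)
      + r * (c * x ^ 2) := by rw [hf]; ring
    rw [e]
    exact dvd_add (dvd_sub (k1.mul_right _) (hs.mul_left _)) (dvd_mul_right _ _)
  have d2 : (b : ℤ) ∣ f := by
    have hc : IsCoprime (b : ℤ) (r : ℤ) := Nat.isCoprime_iff_coprime.2 hrb.symm
    refine hc.dvd_of_dvd_mul_left ?_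
    have e : r * f = (r * x - t * z) * (r * x + t * z) + z ^ 2 * (t ^ 2 - r * c)
      + b * (-r * y ^ 2) := by rw [hf]; ring
    rw [e]
    exact dvd_add (dvd_add (k2.mul_right _) (ht.mul_left _)) (dvd_mul_right _ _)
  have d3 : (c : ℤ) ∣ f := by
    have hc : IsCoprime (c : ℤ) (r : ℤ) := Nat.isCoprime_iff_coprime.2 hrc.symm
    refine hc.dvd_of_dvd_mul_left ?_
    have e : r * f = (r * x - w * y) * (r * x + w * y) + y ^ 2 * (w ^ 2 - r * b)
      + c * (-r * z ^ 2) := by rw [hf]; ring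
    rw [e]
    exact dvd_add (dvd_add (k3.mul_right _) (hw.mul_left _)) (dvd_mul_right _ _)
  have c12 : IsCoprime (r : ℤ) (b : ℤ) := Nat.isCoprime_iff_coprime.2 hrb
  have c3 : IsCoprime ((r * b : ℕ) : ℤ) (c : ℤ) :=
    Nat.isCoprime_iff_coprime.2 (Nat.Coprime.mul_left hrc hbc)
  have dm : ((r * b * c : ℕ) : ℤ) ∣ f := by
    have e1 : (r * b : ℤ) ∣ f := c12.mul_dvd d1 d2
    have e2 : (((r * b : ℕ) : ℤ) * c) ∣ f := c3.mul_dvd (by push_cast; exact e1) d3
    refine (dvd_of_eq ?_).trans e2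
    push_cast; ring
  have hrp : (0 : ℤ) < r := by exact_mod_cast hr0
  have hbp : (0 : ℤ) < b := by exact_mod_cast hb0
  have hcp : (0 : ℤ) < c := by exact_mod_cast hc0
  have b1 : f < r * b * c := by
    have e1 : (r : ℤ) * x ^ 2 < r * (b * c) := mul_lt_mul_of_pos_left hx2 hrp
    have e2 : 0 ≤ b * y ^ 2 := by positivity
    have e3 : 0 ≤ c * z ^ 2 := by positivity
    have e4 : (r : ℤ) * (b * c) = r * b * c := by ring
    rw [hf]; linarith
  have b2 : -(2 * (r * b * c)) < f := by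
    have e1 : (b : ℤ) * y ^ 2 < b * (r * c) := mul_lt_mul_of_pos_left hy2 hbp
    have e2 : (c : ℤ) * z ^ 2 < c * (r * b) := mul_lt_mul_of_pos_left hz2 hcp
    have e3 : 0 ≤ r * x ^ 2 := by positivity
    have e4 : (b : ℤ) * (r * c) = r * b * c := by ring
    have e5 : (c : ℤ) * (r * b) = r * b * c := by ring
    rw [hf]; linarith
  obtain ⟨k, hk⟩ := dm
  have hmp : (0 : ℤ) < r * b * c := by positivity
  push_cast at hk
  have hk1 : k < 1 := by
    by_contra hcon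
    have := mul_le_mul_of_nonneg_left (not_lt.1 hcon) hmp.le
    linarith
  have hk2 : -2 < k := by
    by_contra hcon
    have := mul_le_mul_of_nonneg_left (not_lt.1 hcon) hmp.le
    linarith
  have hk3 : k = 0 ∨ k = -1 := by omega
  rcases hk3 with rfl | rfl
  · have hf0 : (r : ℤ) * x ^ 2 - b * y ^ 2 - c * z ^ 2 = 0 := by rw [← hf, hk]; ring
    refine ⟨y, z, x, ?_, by linarith⟩
    intro hx0
    rw [hx0] at hf0
    have e1 : 0 ≤ (b : ℤ) * y ^ 2 := by positivity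
    have e2 : 0 ≤ (c : ℤ) * z ^ 2 := by positivity
    have e3 : (b : ℤ) * y ^ 2 = 0 := by linarith
    have e4 : (c : ℤ) * z ^ 2 = 0 := by linarith
    have e5 : y = 0 := pow_eq_zero_iff two_ne_zero |>.1 ((mul_eq_zero.1 e3).resolve_left hbp.ne')
    have e6 : z = 0 := pow_eq_zero_iff two_ne_zero |>.1 ((mul_eq_zero.1 e4).resolve_left hcp.ne')
    exact hxyz ⟨hx0, e5, e6⟩
  · have e : (r : ℤ) * x ^ 2 - b * y ^ 2 - c * z ^ 2 = -(r * b * c) := by rw [← hf, hk]; ring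
    refine ⟨y * x + c * z, z * x - b * y, x ^ 2 + b * c, by positivity, ?_⟩
    linear_combination (-(x ^ 2) - b * c) * e

/-- local condition at a prime from the Jacobi symbol -/
theorem loc {a : ℤ} {p : ℕ} (hp : p.Prime) (h : p ≠ 2 → jacobiSym a p = 1) :
    ∃ s : ℤ, (p : ℤ) ∣ s ^ 2 - a := by
  have hF : Fact p.Prime := ⟨hp⟩
  have : NeZero p := ⟨hp.ne_zero⟩
  by_cases hp2 : p = 2
  · refine ⟨a, ?_⟩
    rw [hp2]
    have : a ^ 2 - a = a * (a - 1) := by ring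
    rw [this]
    rcases Int.even_or_odd a with ha | ha
    · exact Dvd.dvd.mul_right ha.two_dvd _
    · refine Dvd.dvd.mul_left ?_ _
      obtain ⟨k, hk⟩ := ha
      exact ⟨k, by rw [hk]; push_cast; ring⟩
  · have h1 := h hp2
    rw [← jacobiSym.legendreSym.to_jacobiSym] at h1
    have ha : (a : ZMod p) ≠ 0 := by
      intro h0
      rw [(legendreSym.eq_zero_iff p a).2 h0] at h1
      exact zero_ne_one h1
    exact sq_lift a ((legendreSym.eq_one_iff p ha).1 h1)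

theorem not_sq {n : ℕ} (hn : Squarefree n) (h1 : n ≠ 1) (x : ℤ) : x ^ 2 ≠ n := by
  intro hx
  have h2 : x.natAbs * x.natAbs = n := by
    have : ((x.natAbs * x.natAbs : ℕ) : ℤ) = n := by
      rw [Int.natAbs_mul_self, ← sq]
      exact hx
    exact_mod_cast this
  have h3 := hn x.natAbs ⟨1, by rw [mul_one]; exact h2.symm⟩
  rw [Nat.isUnit_iff] at h3
  rw [h3] at h2
  exact h1 h2.symm

/-- a solution from the local conditions -/
theorem suff {r b c : ℕ} (hr : r = 1 ∨ r = 2 ∧ Odd (b * c)) (hsf : Squarefree (b * c))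
    (hc : ∀ p : ℕ, p.Prime → p ≠ 2 → p ∣ c → jacobiSym (r * b : ℕ) p = 1)
    (hb : ∀ p : ℕ, p.Prime → p ≠ 2 → p ∣ b → jacobiSym (r * c : ℕ) p = 1) :
    ∃ u v : ℚ, ((r * b : ℕ) : ℚ) = u ^ 2 + (b * c : ℕ) * v ^ 2 := by
  obtain ⟨hcop, hsb, hsc⟩ := Nat.squarefree_mul_iff.1 hsf
  have hb0 : 0 < b := Nat.pos_of_ne_zero hsb.ne_zero
  have hc0 : 0 < c := Nat.pos_of_ne_zero hsc.ne_zero
  have hr0 : 0 < r := by rcases hr with rfl | ⟨rfl, -⟩ <;> norm_num
  have fin : (∃ x y z : ℤ, z ≠ 0 ∧ (b : ℤ) * x ^ 2 + c * y ^ 2 = r * z ^ 2) →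
      ∃ u v : ℚ, ((r * b : ℕ) : ℚ) = u ^ 2 + (b * c : ℕ) * v ^ 2 := by
    rintro ⟨x, y, z, hz, h⟩
    refine ⟨b * x / z, y / z, ?_⟩
    have hz' : (z : ℚ) ≠ 0 := by exact_mod_cast hz
    have h' : (b : ℚ) * x ^ 2 + c * y ^ 2 = r * z ^ 2 := by exact_mod_cast h
    push_cast
    field_simp
    linear_combination -h'
  by_cases h11 : b * c = 1
  · have hb1 : b = 1 := Nat.eq_one_of_mul_eq_one_right h11
    have hc1 : c = 1 := Nat.eq_one_of_mul_eq_one_left h11
    apply fin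
    rcases hr with rfl | ⟨rfl, -⟩
    · exact ⟨1, 0, 1, one_ne_zero, by rw [hb1]; norm_num⟩
    · exact ⟨1, 1, 1, one_ne_zero, by rw [hb1, hc1]; norm_num⟩
  by_cases hrc1 : r * c = 1
  · have h1 : r = 1 := Nat.eq_one_of_mul_eq_one_right hrc1
    have h2 : c = 1 := Nat.eq_one_of_mul_eq_one_left hrc1
    apply fin
    exact ⟨0, 1, 1, one_ne_zero, by rw [h1, h2]; norm_num⟩
  by_cases hrb1 : r * b = 1
  · have h1 : r = 1 := Nat.eq_one_of_mul_eq_one_right hrb1
    have h2 : b = 1 := Nat.eq_one_of_mul_eq_one_left hrb1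
    apply fin
    exact ⟨1, 0, 1, one_ne_zero, by rw [h1, h2]; norm_num⟩
  have hrbc : r.Coprime b ∧ r.Coprime c := by
    rcases hr with rfl | ⟨rfl, ho⟩
    · exact ⟨Nat.coprime_one_left b, Nat.coprime_one_left c⟩
    · rw [Nat.odd_mul] at ho
      exact ⟨Nat.coprime_two_left.2 ho.1, Nat.coprime_two_left.2 ho.2⟩
  have hsr : Squarefree r := by
    rcases hr with rfl | ⟨rfl, -⟩
    · exact squarefree_one
    · exact Nat.prime_two.squarefree
  have hsrc : Squarefree (r * c) := Nat.squarefree_mul_iff.2 ⟨hrbc.2, hsr, hsc⟩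
  have hsrb : Squarefree (r * b) := Nat.squarefree_mul_iff.2 ⟨hrbc.1, hsr, hsb⟩
  apply fin
  refine legendre hr0 hb0 hc0 hrbc.1 hrbc.2 hcop ?_ ?_ ?_ ?_ ?_ ?_
  · rcases hr with rfl | ⟨rfl, ho⟩
    · exact ⟨0, by simp⟩
    · refine ⟨1, ?_⟩
      obtain ⟨k, hk⟩ := ho
      have hk' : (b : ℤ) * c = 2 * k + 1 := by exact_mod_cast hk
      rw [hk']
      exact ⟨k + 1, by push_cast; ring⟩
  · have := sq_crt ((r * c : ℕ) : ℤ) hsb fun p hp hpb => loc hp fun hp2 => hb p hp hp2 hpb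
    push_cast at this
    exact this
  · have := sq_crt ((r * b : ℕ) : ℤ) hsc fun p hp hpc => loc hp fun hp2 => hc p hp hp2 hpc
    push_cast at this
    exact this
  · intro x hx
    exact not_sq hsrc hrc1 x (by push_cast; exact hx)
  · intro x hx
    exact not_sq hsrb hrb1 x (by push_cast; exact hx)
  · intro x hx
    exact not_sq hsf h11 x (by push_cast; exact hx)

/-- the local condition at one prime from a solution -/
theorem nec1 {r b c p : ℕ} (hp : p.Prime) (hpc : p ∣ c) (hsc : Squarefree c)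
    (hpr : ¬ p ∣ r) (hpb : ¬ p ∣ b) (n : ℕ) : ∀ x y z : ℤ, z ≠ 0 → z.natAbs ≤ n →
      (b : ℤ) * x ^ 2 + c * y ^ 2 = r * z ^ 2 → jacobiSym (r * b : ℕ) p = 1 := by
  have hF : Fact p.Prime := ⟨hp⟩
  have hpi : Prime (p : ℤ) := Nat.prime_iff_prime_int.1 hp
  have hpr' : ¬ (p : ℤ) ∣ r := by exact_mod_cast hpr
  have hpb' : ¬ (p : ℤ) ∣ b := by exact_mod_cast hpb
  obtain ⟨m, hm⟩ := hpc
  have hpm : ¬ (p : ℤ) ∣ m := by
    intro h
    have h1 : p ∣ m := by exact_mod_cast h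
    obtain ⟨k, hk⟩ := h1
    have h2 := hsc p ⟨k, by rw [hm, hk]; ring⟩
    exact hp.one_lt.ne' (Nat.isUnit_iff.1 h2)
  induction n with
  | zero =>
    intro x y z hz hzn _
    exact absurd (Int.natAbs_eq_zero.1 (Nat.le_zero.1 hzn)) hz
  | succ n ih =>
    intro x y z hz hzn h
    rw [hm] at h
    push_cast at h
    by_cases hx : (p : ℤ) ∣ x
    · obtain ⟨x', rfl⟩ := hx
      have h1 : (p : ℤ) ∣ r * z ^ 2 := ⟨b * p * x' ^ 2 + m * y ^ 2, by rw [← h]; ring⟩
      have h2 : (p : ℤ) ∣ z := hpi.dvd_of_dvd_pow ((hpi.dvd_or_dvd h1).resolve_left hpr')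
      obtain ⟨z', rfl⟩ := h2
      have hp0 : (p : ℤ) ≠ 0 := hpi.ne_zero
      have h3 : (m : ℤ) * y ^ 2 = p * (r * z' ^ 2 - b * x' ^ 2) := by
        apply mul_left_cancel₀ hp0
        linear_combination h
      have h4 : (p : ℤ) ∣ y :=
        hpi.dvd_of_dvd_pow ((hpi.dvd_or_dvd ⟨_, h3⟩).resolve_left hpm)
      obtain ⟨y', rfl⟩ := h4
      have hz' : z' ≠ 0 := by
        rintro rfl
        exact hz (mul_zero _)
      refine ih x' y' z' hz' ?_ ?_
      · rw [Int.natAbs_mul, Int.natAbs_natCast] at hzn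
        have h5 := hp.two_le
        have h6 : 0 < z'.natAbs := Int.natAbs_pos.2 hz'
        have h7 := Nat.mul_le_mul_right z'.natAbs h5
        omega
      · rw [hm]
        push_cast
        apply mul_left_cancel₀ (pow_ne_zero 2 hp0)
        linear_combination h
    · rw [← jacobiSym.legendreSym.to_jacobiSym]
      have hne : (((r * b : ℕ) : ℤ) : ZMod p) ≠ 0 := by
        rw [Ne, ZMod.intCast_zmod_eq_zero_iff_dvd]
        push_cast
        intro h1
        rcases hpi.dvd_or_dvd h1 with h2 | h2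
        · exact hpr' h2
        · exact hpb' h2
      rw [legendreSym.eq_one_iff p hne]
      have hx' : ((x : ℤ) : ZMod p) ≠ 0 := by
        rw [Ne, ZMod.intCast_zmod_eq_zero_iff_dvd]
        exact hx
      refine ⟨(r : ZMod p) * (z : ZMod p) / (x : ZMod p), ?_⟩
      have h5 := congrArg (Int.cast : ℤ → ZMod p) h
      push_cast at h5
      rw [ZMod.natCast_self] at h5
      push_cast
      field_simp
      linear_combination (r : ZMod p) * h5

/-- the local conditions from a solution -/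
theorem nec {r b c : ℕ} (hr : r = 1 ∨ r = 2) (hsf : Squarefree (b * c))
    (h : ∃ u v : ℚ, ((r * b : ℕ) : ℚ) = u ^ 2 + (b * c : ℕ) * v ^ 2) :
    (∀ p : ℕ, p.Prime → p ≠ 2 → p ∣ c → jacobiSym (r * b : ℕ) p = 1) ∧
    ∀ p : ℕ, p.Prime → p ≠ 2 → p ∣ b → jacobiSym (r * c : ℕ) p = 1 := by
  obtain ⟨hcop, hsb, hsc⟩ := Nat.squarefree_mul_iff.1 hsf
  obtain ⟨u, v, huv⟩ := h
  -- clear denominators
  obtain ⟨x, y, z, hz, hxyz⟩ : ∃ x y z : ℤ, z ≠ 0 ∧
      (b : ℤ) * x ^ 2 + c * y ^ 2 = r * z ^ 2 := by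
    have hu : (u.den : ℚ) ≠ 0 := by exact_mod_cast u.den_nz
    have hv : (v.den : ℚ) ≠ 0 := by exact_mod_cast v.den_nz
    have h1 : (u.num : ℚ) = u * u.den := (Rat.mul_den_eq_num u).symm
    have h2 : (v.num : ℚ) = v * v.den := (Rat.mul_den_eq_num v).symm
    have h3 : ((u.num * v.den : ℤ) : ℚ) ^ 2 + (b * c) * ((v.num * u.den : ℤ) : ℚ) ^ 2 =
        r * b * ((u.den * v.den : ℤ) : ℚ) ^ 2 := by
      push_cast at huv ⊢
      rw [h1, h2]
      linear_combination -((u.den : ℚ) * v.den) ^ 2 * huv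
    have h4 : (u.num * v.den : ℤ) ^ 2 + (b * c : ℤ) * (v.num * u.den : ℤ) ^ 2 =
        r * b * (u.den * v.den : ℤ) ^ 2 := by exact_mod_cast h3
    have hbd : (b : ℤ) ∣ (u.num * v.den : ℤ) ^ 2 :=
      ⟨r * (u.den * v.den : ℤ) ^ 2 - c * (v.num * u.den : ℤ) ^ 2, by linear_combination h4⟩
    have hsb' : Squarefree (b : ℤ) := Int.squarefree_natCast.2 hsb
    obtain ⟨x, hx⟩ := (hsb'.dvd_pow_iff_dvd two_ne_zero).1 hbd
    have hb0 : (b : ℤ) ≠ 0 := by exact_mod_cast hsb.ne_zero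
    refine ⟨x, v.num * u.den, u.den * v.den, ?_, ?_⟩
    · exact mul_ne_zero (by exact_mod_cast u.den_nz) (by exact_mod_cast v.den_nz)
    · rw [hx] at h4
      apply mul_left_cancel₀ hb0
      linear_combination h4
  have hpr : ∀ p : ℕ, p.Prime → p ≠ 2 → ¬ p ∣ r := by
    intro p hp hp2 h
    rcases hr with rfl | rfl
    · exact hp.one_lt.ne' (Nat.dvd_one.1 h)
    · exact hp2 ((Nat.prime_dvd_prime_iff_eq hp Nat.prime_two).1 h)
  have hndvd : ∀ p : ℕ, p.Prime → p ∣ b → ¬ p ∣ c := by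
    intro p hp h1 h2
    have := Nat.dvd_gcd h1 h2
    rw [hcop] at this
    exact hp.one_lt.ne' (Nat.dvd_one.1 this)
  constructor
  · intro p hp hp2 hpc
    exact nec1 hp hpc hsc (hpr p hp hp2) (fun h => hndvd p hp h hpc) _ x y z hz le_rfl hxyz
  · intro p hp hp2 hpb
    exact nec1 hp hpb hsb (hpr p hp hp2) (hndvd p hp hpb) _ y x z hz le_rfl
      (by rw [add_comm]; exact hxyz)

theorem t_LEG : S_LEG := by
  constructor
  · intro b c hsf
    constructor
    · intro h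
      have := nec (r := 1) (Or.inl rfl) hsf (by simpa using h)
      simpa using this
    · intro h
      have := suff (r := 1) (Or.inl rfl) hsf (by simpa using h.1) (by simpa using h.2)
      simpa using this
  · intro b c hsf hodd
    have hodd2 := Nat.odd_mul.1 hodd
    have hne : ∀ n p : ℕ, Odd n → p ∣ n → p ≠ 2 := by
      rintro n p hn hp rfl
      exact (Nat.not_even_iff_odd.2 hn) (even_iff_two_dvd.2 hp)
    constructor
    · intro h
      obtain ⟨h1, h2⟩ := nec (r := 2) (Or.inr rfl) hsf h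
      push_cast at h1 h2
      exact ⟨fun p hp hpc => h1 p hp (hne c p hodd2.2 hpc) hpc,
        fun p hp hpb => h2 p hp (hne b p hodd2.1 hpb) hpb⟩
    · intro h
      exact suff (r := 2) (Or.inr ⟨rfl, hodd⟩) hsf
        (fun p hp _ hpc => by push_cast; exact h.1 p hp hpc)
        (fun p hp _ hpb => by push_cast; exact h.2 p hp hpb)

end Pool.Agent.Y168.FK
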