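import Pool.Agent.Y755.FK.Stm

/-!
# A determinate moment problem
-/

set_option autoImplicit false

open MeasureTheory ProbabilityTheory Filter Set
open scoped Topology ENNReal

namespace Pool.Agent.Y168.FK

open Pool.Agent.Y755.FK

/-- finite measures with exponential moments are determined by their moments -/
theorem ext_moments (ν ν' : Measure ℝ) [IsFiniteMeasure ν] [IsFiniteMeasure ν'] (l : ℝ)
    (hl : 0 < l) (h : ∀ s ∈ Icc (-l) l, Integrable (fun x : ℝ => Real.exp (s * x)) ν)
    (h' : ∀ s ∈ Icc (-l) l, Integrable (fun x : ℝ => Real.exp (s * x)) ν')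
    (hm : ∀ n : ℕ, ∫ x, x ^ n ∂ν = ∫ x, x ^ n ∂ν') : ν = ν' := by
  have hI : ∀ s ∈ Ioo (-l) l, s ∈ interior (integrableExpSet id ν) := by
    intro s hs
    rw [mem_interior]
    exact ⟨Ioo (-l) l, fun r hr => h r (Ioo_subset_Icc_self hr), isOpen_Ioo, hs⟩
  have hI' : ∀ s ∈ Ioo (-l) l, s ∈ interior (integrableExpSet id ν') := by
    intro s hs
    rw [mem_interior]
    exact ⟨Ioo (-l) l, fun r hr => h' r (Ioo_subset_Icc_self hr), isOpen_Ioo, hs⟩
  have h0 : (0 : ℝ) ∈ Ioo (-l) l := ⟨by linarith, hl⟩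
  have hd : ∀ n : ℕ, iteratedDeriv n (complexMGF id ν) 0 = iteratedDeriv n (complexMGF id ν') 0 := by
    intro n
    rw [iteratedDeriv_complexMGF (by rw [Complex.zero_re]; exact hI 0 h0),
      iteratedDeriv_complexMGF (by rw [Complex.zero_re]; exact hI' 0 h0)]
    simp only [id_eq, zero_mul, Complex.exp_zero, mul_one]
    have e1 : ∀ ρ : Measure ℝ, ∫ x, (x : ℂ) ^ n ∂ρ = ((∫ x, x ^ n ∂ρ : ℝ) : ℂ) := by
      intro ρ
      rw [← integral_complex_ofReal]
      refine integral_congr_ae (Eventually.of_forall fun x => ?_)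
      simp
    rw [e1, e1, hm]
  have hU : IsOpen {z : ℂ | z.re ∈ Ioo (-l) l} := isOpen_Ioo.preimage Complex.continuous_re
  have ha : AnalyticOnNhd ℂ (complexMGF id ν) {z : ℂ | z.re ∈ Ioo (-l) l} := fun z hz =>
    analyticAt_complexMGF (hI _ hz)
  have ha' : AnalyticOnNhd ℂ (complexMGF id ν') {z : ℂ | z.re ∈ Ioo (-l) l} := fun z hz =>
    analyticAt_complexMGF (hI' _ hz)
  have hball : Metric.ball (0 : ℂ) l ⊆ {z : ℂ | z.re ∈ Ioo (-l) l} := by
    intro z hz
    rw [Metric.mem_ball, dist_zero_right] at hz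
    have h1 := (Complex.abs_re_le_norm z).trans_lt hz
    rw [abs_lt] at h1
    exact h1
  have hloc : complexMGF id ν =ᶠ[𝓝 0] complexMGF id ν' := by
    filter_upwards [Metric.ball_mem_nhds (0 : ℂ) hl] with z hz
    have e1 := Complex.hasSum_taylorSeries_on_ball
      (ha.differentiableOn.mono hball) hz
    have e2 := Complex.hasSum_taylorSeries_on_ball
      (ha'.differentiableOn.mono hball) hz
    simp only [hd] at e1
    exact e1.unique e2
  have hpre : IsPreconnected {z : ℂ | z.re ∈ Ioo (-l) l} := by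
    have : Convex ℝ {z : ℂ | z.re ∈ Ioo (-l) l} :=
      (convex_Ioo (-l) l).is_linear_preimage Complex.reLm.isLinear
    exact this.isPreconnected
  have heq := ha.eqOn_of_preconnected_of_eventuallyEq ha' hpre (by
    show (0 : ℂ).re ∈ Ioo (-l) l
    rw [Complex.zero_re]
    exact h0) hloc
  refine Measure.ext_of_charFun ?_
  funext r
  rw [← complexMGF_id_mul_I, ← complexMGF_id_mul_I]
  refine heq ?_
  show ((r : ℂ) * Complex.I).re ∈ Ioo (-l) l
  simpa using h0

/-- the symmetrized law of the square root -/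
noncomputable def symm (μ : Measure ℝ) : Measure ℝ :=
  μ.map (fun u => √u) + μ.map (fun u => -√u)

theorem meas_sqrt : Measurable (fun u : ℝ => √u) := Real.continuous_sqrt.measurable

theorem meas_nsqrt : Measurable (fun u : ℝ => -√u) := meas_sqrt.neg

theorem symm_int {μ : Measure ℝ} {f : ℝ → ℝ} (hf : Measurable f) :
    Integrable f (symm μ) ↔ Integrable (fun u => f (√u)) μ ∧ Integrable (fun u => f (-√u)) μ := by
  rw [symm, integrable_add_measure,
    integrable_map_measure hf.aestronglyMeasurable meas_sqrt.aemeasurable,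
    integrable_map_measure hf.aestronglyMeasurable meas_nsqrt.aemeasurable]
  rfl

theorem symm_integral {μ : Measure ℝ} {f : ℝ → ℝ} (hf : Measurable f)
    (h : Integrable f (symm μ)) :
    ∫ x, f x ∂(symm μ) = ∫ u, (f (√u) + f (-√u)) ∂μ := by
  have h1 := (symm_int hf).1 h
  rw [integral_add h1.1 h1.2]
  have h2 := h
  rw [symm, integrable_add_measure] at h2
  rw [symm, integral_add_measure h2.1 h2.2,
    integral_map meas_sqrt.aemeasurable hf.aestronglyMeasurable,
    integral_map meas_nsqrt.aemeasurable hf.aestronglyMeasurable]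

theorem symm_inj {μ μ' : Measure ℝ} (h0 : μ (Iic 0) = 0) (h0' : μ' (Iic 0) = 0)
    (h : symm μ = symm μ') : μ = μ' := by
  refine Measure.ext fun A hA => ?_
  have key : ∀ ρ : Measure ℝ, ρ (Iic 0) = 0 → symm ρ {x | 0 < x ∧ x ^ 2 ∈ A} = ρ A := by
    intro ρ hρ
    have hB : MeasurableSet {x : ℝ | 0 < x ∧ x ^ 2 ∈ A} :=
      measurableSet_Ioi.inter ((measurable_id.pow_const 2) hA)
    rw [symm, Measure.add_apply, Measure.map_apply meas_sqrt hB,
      Measure.map_apply meas_nsqrt hB]
    have e1 : (fun u : ℝ => -√u) ⁻¹' {x | 0 < x ∧ x ^ 2 ∈ A} = ∅ := by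
      ext u
      refine ⟨fun hu => ?_, fun hu => hu.elim⟩
      have h1 : 0 < -√u := hu.1
      have h2 := Real.sqrt_nonneg u
      linarith
    have e2 : (fun u : ℝ => √u) ⁻¹' {x | 0 < x ∧ x ^ 2 ∈ A} = A \ Iic 0 := by
      ext u
      constructor
      · rintro ⟨h1, h2⟩
        have h3 : 0 < u := Real.sqrt_pos.1 h1
        have h4 : √u ^ 2 = u := Real.sq_sqrt h3.le
        refine ⟨?_, fun h5 => absurd h3 (not_lt.2 h5)⟩
        rw [← h4]
        exact h2
      · rintro ⟨h1, h2⟩
        have h3 : 0 < u := not_le.1 h2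
        refine ⟨Real.sqrt_pos.2 h3, ?_⟩
        show √u ^ 2 ∈ A
        rw [Real.sq_sqrt h3.le]
        exact h1
    rw [e1, e2, measure_empty, add_zero]
    exact measure_sdiff_null hρ
  rw [← key μ h0, ← key μ' h0', h]

theorem t_DET2 : S_DET2 := by
  intro t l ht hl hint hmom
  obtain ⟨V, hV⟩ : ∃ V : Measure ℝ, V = volume.restrict (Ioi (0 : ℝ)) := ⟨_, rfl⟩
  have hint' : Integrable (fun u => |t u| * Real.exp (l * √u)) V := by
    rw [hV]
    exact hint
  have hti : Integrable t V := by
    refine hint'.mono ht.aestronglyMeasurable (Eventually.of_forall fun u => ?_)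
    rw [Real.norm_eq_abs, Real.norm_eq_abs, abs_mul, abs_abs, Real.abs_exp]
    refine le_mul_of_one_le_right (abs_nonneg _) ?_
    exact Real.one_le_exp (mul_nonneg hl.le (Real.sqrt_nonneg _))
  -- the two parts
  obtain ⟨P, hP⟩ : ∃ P : (ℝ → ℝ) → Measure ℝ,
    P = fun f => V.withDensity (fun u => ENNReal.ofReal (f u)) := ⟨_, rfl⟩
  have hfin : ∀ f : ℝ → ℝ, Integrable f V → IsFiniteMeasure (P f) := by
    intro f hf
    rw [hP]
    exact isFiniteMeasure_withDensity_ofReal hf.2
  have hzero : ∀ f : ℝ → ℝ, P f (Iic 0) = 0 := by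
    intro f
    rw [hP]
    simp only []
    rw [withDensity_apply _ measurableSet_Iic, hV, Measure.restrict_restrict measurableSet_Iic,
      Iic_inter_Ioi, Ioc_self, Measure.restrict_empty, lintegral_zero_measure]
  have hP1 : ∀ f : ℝ → ℝ, Measurable f → ∀ g : ℝ → ℝ,
      (Integrable g (P f) ↔ Integrable (fun u => max (f u) 0 * g u) V) := by
    intro f hf g
    rw [hP]
    simp only []
    rw [integrable_withDensity_iff_integrable_smul' hf.ennreal_ofReal
      (Eventually.of_forall fun u => ENNReal.ofReal_lt_top)]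
    simp only [ENNReal.toReal_ofReal', smul_eq_mul]
  have hP2 : ∀ f : ℝ → ℝ, Measurable f → ∀ g : ℝ → ℝ,
      ∫ u, g u ∂(P f) = ∫ u, max (f u) 0 * g u ∂V := by
    intro f hf g
    rw [hP]
    simp only []
    rw [integral_withDensity_eq_integral_toReal_smul hf.ennreal_ofReal
      (Eventually.of_forall fun u => ENNReal.ofReal_lt_top)]
    simp only [ENNReal.toReal_ofReal', smul_eq_mul]
  have hbd : ∀ f : ℝ → ℝ, Measurable f → (∀ u, |f u| = |t u|) → ∀ s ∈ Icc (-l) l,
      Integrable (fun u => Real.exp (s * √u)) (P f) := by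
    intro f hf hft s hs
    rw [hP1 f hf]
    refine hint'.mono ?_ (Eventually.of_forall fun u => ?_)
    · exact ((hf.max measurable_const).mul
        (Real.measurable_exp.comp (meas_sqrt.const_mul s))).aestronglyMeasurable
    · rw [Real.norm_eq_abs, Real.norm_eq_abs, abs_mul, abs_mul, abs_abs, Real.abs_exp,
        Real.abs_exp]
      refine mul_le_mul ?_ (Real.exp_le_exp.2 ?_) (Real.exp_pos _).le (abs_nonneg _)
      · rw [← hft u, abs_of_nonneg (le_max_right _ _)]
        exact max_le (le_abs_self _) (abs_nonneg _)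
      · exact mul_le_mul_of_nonneg_right hs.2 (Real.sqrt_nonneg _)
  have hexp : ∀ f : ℝ → ℝ, Measurable f → (∀ u, |f u| = |t u|) → ∀ s ∈ Icc (-l) l,
      Integrable (fun x => Real.exp (s * x)) (symm (P f)) := by
    intro f hf hft s hs
    rw [symm_int (by fun_prop)]
    refine ⟨hbd f hf hft s hs, ?_⟩
    have h1 := hbd f hf hft (-s) ⟨by linarith [hs.2], by linarith [hs.1]⟩
    refine h1.congr (Eventually.of_forall fun u => ?_)
    simp only []
    congr 1
    ring
  have hft : ∀ u, |(-t) u| = |t u| := fun u => by rw [Pi.neg_apply, abs_neg]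
  have hfs : ∀ f : ℝ → ℝ, Integrable f V → IsFiniteMeasure (symm (P f)) := by
    intro f hf
    have := hfin f hf
    rw [symm]
    infer_instance
  have hF1 := hfs t hti
  have hF2 := hfs (-t) hti.neg
  have hint0 : ∀ f : ℝ → ℝ, Measurable f → (∀ u, |f u| = |t u|) →
      0 ∈ interior (integrableExpSet id (symm (P f))) := by
    intro f hf hft
    rw [mem_interior]
    exact ⟨Ioo (-l) l, fun r hr => hexp f hf hft r (Ioo_subset_Icc_self hr), isOpen_Ioo,
      ⟨by linarith, hl⟩⟩
  have hpow : ∀ f : ℝ → ℝ, Measurable f → (∀ u, |f u| = |t u|) → ∀ n : ℕ,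
      Integrable (fun x : ℝ => x ^ n) (symm (P f)) := fun f hf hft n =>
    integrable_pow_of_mem_interior_integrableExpSet (hint0 f hf hft) n
  have hsymm : symm (P t) = symm (P (-t)) := by
    refine ext_moments _ _ l hl (hexp t ht fun _ => rfl) (hexp (-t) ht.neg hft) fun n => ?_
    have hn : Measurable (fun x : ℝ => x ^ n) := measurable_id.pow_const n
    have i1 := hpow t ht (fun _ => rfl) n
    have i2 := hpow (-t) ht.neg hft n
    have j1 := (symm_int hn).1 i1
    have j2 := (symm_int hn).1 i2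
    have k1 : Integrable (fun u => max (t u) 0 * (√u ^ n + (-√u) ^ n)) V :=
      (hP1 t ht _).1 (j1.1.add j1.2)
    have k2 : Integrable (fun u => max ((-t) u) 0 * (√u ^ n + (-√u) ^ n)) V :=
      (hP1 (-t) ht.neg _).1 (j2.1.add j2.2)
    rw [symm_integral hn i1, symm_integral hn i2, hP2 t ht, hP2 (-t) ht.neg, ← sub_eq_zero,
      ← integral_sub k1 k2]
    have e1 : ∀ u, max (t u) 0 * (√u ^ n + (-√u) ^ n) - max ((-t) u) 0 * (√u ^ n + (-√u) ^ n) =
        t u * (√u ^ n + (-√u) ^ n) := by
      intro u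
      rw [← sub_mul, Pi.neg_apply]
      congr 1
      rcases le_total 0 (t u) with h | h
      · rw [max_eq_left h, max_eq_right (by linarith)]
        ring
      · rw [max_eq_right h, max_eq_left (by linarith)]
        ring
    simp only [e1]
    rcases Nat.even_or_odd' n with ⟨m, rfl | rfl⟩
    · have e2 : ∫ u, t u * (√u ^ (2 * m) + (-√u) ^ (2 * m)) ∂V =
          ∫ u, 2 * (t u * u ^ m) ∂V := by
        rw [hV]
        refine setIntegral_congr_fun measurableSet_Ioi fun u hu => ?_
        simp only [pow_mul, neg_sq]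
        rw [Real.sq_sqrt (le_of_lt hu)]
        ring
      rw [e2, integral_const_mul, hV, hmom m, mul_zero]
    · have e2 : ∀ u, t u * (√u ^ (2 * m + 1) + (-√u) ^ (2 * m + 1)) = 0 := by
        intro u
        rw [Odd.neg_pow ⟨m, rfl⟩, add_neg_cancel, mul_zero]
      simp only [e2, integral_zero]
  have hPP := symm_inj (hzero t) (hzero (-t)) hsymm
  rw [hP] at hPP
  simp only [] at hPP
  rw [withDensity_eq_iff ht.ennreal_ofReal.aemeasurable ht.neg.ennreal_ofReal.aemeasurable ?_]
    at hPP
  · rw [← hV]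
    filter_upwards [hPP] with u hu
    rw [Pi.neg_apply] at hu
    by_contra hne
    rcases lt_or_gt_of_ne hne with h | h
    · rw [ENNReal.ofReal_of_nonpos h.le] at hu
      have := ENNReal.ofReal_pos.2 (neg_pos.2 h)
      rw [← hu] at this
      exact lt_irrefl _ this
    · rw [ENNReal.ofReal_of_nonpos (neg_nonpos.2 h.le)] at hu
      have := ENNReal.ofReal_pos.2 h
      rw [hu] at this
      exact lt_irrefl _ this
  · exact hti.lintegral_lt_top.ne

end Pool.Agent.Y168.FK
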