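import Pool.Agent.Y755.FK.Stm

/-!
# Positivity of the twelve constants
-/

set_option autoImplicit false

namespace Pool.Agent.Y168.FK

open Pool.Agent.Y755.FK

theorem t_KPOS : S_KPOS := by
  intro i κ d hκ hd
  have hx : jacobiSym (-1) d = 1 ∨ jacobiSym (-1) d = -1 := by
    refine jacobiSym.eq_one_or_neg_one ?_
    simp
  have hy : jacobiSym 2 d = 1 ∨ jacobiSym 2 d = -1 := by
    refine jacobiSym.eq_one_or_neg_one ?_
    have h : Nat.Coprime 2 d := (Nat.coprime_two_left).2 hd
    exact_mod_cast h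
  have h2 : jacobiSym (-2) d = jacobiSym (-1) d * jacobiSym 2 d := by
    rw [← jacobiSym.mul_left]
    norm_num
  have h1 : jacobiSym 1 d = 1 := jacobiSym.one_left d
  rw [KK] at hκ
  simp only [Finset.mem_insert, Finset.mem_singleton] at hκ
  rcases hx with hx | hx <;> rcases hy with hy | hy <;> rw [hx, hy] at h2 <;>
    rcases hκ with rfl | rfl | rfl | rfl <;> fin_cases i <;>
    simp [Kc, Fintype.sum_prod_type, co, c1, c2, c3, c4, nt, ep, tw, sg, J, hx, hy, h2, h1] <;>
    norm_num

end Pool.Agent.Y168.FK
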